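import Pool.Agent.Helper1.IW.C2

set_option autoImplicit false
set_option maxSynthPendingDepth 3

open MeasureTheory Complex Filter Topology
open scoped ENNReal NNReal ComplexConjugate

noncomputable section

namespace Helper85.IW.M_B2a

open Helper72.BA Helper85.IW Helper85.IW.M_C2

/-- multiplier of the derivative in direction `1` -/
def mx (ξ : ℂ) : ℂ := 2 * Real.pi * I * ξ.re
/-- multiplier of the derivative in direction `I` -/
def my (ξ : ℂ) : ℂ := 2 * Real.pi * I * ξ.im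

theorem rap_mx (h1 : StA1) {g : ℂ → ℂ} (hg : Rap g) : Rap (fun ξ => mx ξ * g ξ) := by
  refine h1.2 g mx hg (by unfold mx; fun_prop) ⟨1, 2 * Real.pi, fun ξ => ?_⟩
  unfold mx
  rw [norm_mul, norm_mul, norm_mul, Complex.norm_I, Complex.norm_real, Complex.norm_real,
    Real.norm_eq_abs, Real.norm_eq_abs, abs_of_pos Real.pi_pos]
  have h3 := Complex.abs_re_le_norm ξ
  have h4 : ‖(2:ℂ)‖ = 2 := by norm_num
  rw [h4, pow_one, mul_one]
  have := Real.pi_pos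
  gcongr
  linarith

theorem rap_my (h1 : StA1) {g : ℂ → ℂ} (hg : Rap g) : Rap (fun ξ => my ξ * g ξ) := by
  refine h1.2 g my hg (by unfold my; fun_prop) ⟨1, 2 * Real.pi, fun ξ => ?_⟩
  unfold my
  rw [norm_mul, norm_mul, norm_mul, Complex.norm_I, Complex.norm_real, Complex.norm_real,
    Real.norm_eq_abs, Real.norm_eq_abs, abs_of_pos Real.pi_pos]
  have h3 := Complex.abs_im_le_norm ξ
  have h4 : ‖(2:ℂ)‖ = 2 := by norm_num
  rw [h4, pow_one, mul_one]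
  have := Real.pi_pos
  gcongr
  linarith

theorem cont_ch (z : ℂ) : Continuous (ch z) := by unfold ch; fun_prop

theorem norm_ch (z ξ : ℂ) : ‖ch z ξ‖ = 1 := by
  unfold ch
  have e : (2 * Real.pi * I * (z.re * ξ.re + z.im * ξ.im : ℝ) : ℂ)
      = ((2 * Real.pi * (z.re * ξ.re + z.im * ξ.im) : ℝ) : ℂ) * I := by
    push_cast; ring
  rw [e, Complex.norm_exp_ofReal_mul_I]

theorem int_HE (h1 : StA1) {g : ℂ → ℂ} (hg : Rap g) (t : ℝ) (z : ℂ) :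
    Integrable (fun ξ : ℂ => ch z ξ * (((Real.exp (-(max t 0) * ‖ξ‖ ^ 2) : ℝ) : ℂ) * g ξ)) := by
  refine ((h1.1 g hg).1.norm).mono' ?_ (Eventually.of_forall (fun ξ => ?_))
  · refine ((cont_ch z).measurable.mul ?_).aestronglyMeasurable
    exact (by fun_prop : Measurable
      (fun ξ : ℂ => ((Real.exp (-(max t 0) * ‖ξ‖ ^ 2) : ℝ) : ℂ))).mul hg.meas
  · rw [norm_mul, norm_ch, one_mul, norm_mul, Complex.norm_real, Real.norm_eq_abs,
      abs_of_pos (Real.exp_pos _)]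
    have h3 : Real.exp (-(max t 0) * ‖ξ‖ ^ 2) ≤ 1 := by
      rw [Real.exp_le_one_iff]
      have : 0 ≤ max t 0 := le_max_right _ _
      nlinarith [sq_nonneg ‖ξ‖, mul_nonneg this (sq_nonneg ‖ξ‖)]
    have h4 := norm_nonneg (g ξ)
    nlinarith

theorem HE_lin (h1 : StA1) {g h : ℂ → ℂ} (hg : Rap g) (hh : Rap h) (a b : ℂ) (t : ℝ) (z : ℂ) :
    a * HE g t z + b * HE h t z = HE (fun ξ => a * g ξ + b * h ξ) t z := by
  unfold HE
  rw [← integral_const_mul, ← integral_const_mul,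
    ← integral_add ((int_HE h1 hg t z).const_mul a) ((int_HE h1 hh t z).const_mul b)]
  congr 1
  funext ξ
  ring

theorem memLp_pair {u v : ℂ → ℂ} (hu : Continuous u) (hv : Continuous v) (h0 : MemLp u 2)
    (h1 : MemLp v 2) : MemLp (fun z => ((u z, v z) : E)) 2 := by
  refine MemLp.of_le_mul (g := fun z => ‖u z‖ + ‖v z‖) (c := 1)
    (h0.norm.add h1.norm) (hu.prodMk hv).aestronglyMeasurable ?_
  refine Eventually.of_forall (fun z => ?_)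
  have h3 : (0:ℝ) ≤ ‖u z‖ + ‖v z‖ := by positivity
  rw [one_mul, Real.norm_eq_abs, abs_of_nonneg h3]
  have e : ‖((u z, v z) : E)‖ = max ‖u z‖ ‖v z‖ := rfl
  rw [e]
  exact max_le (by linarith [norm_nonneg (v z)]) (by linarith [norm_nonneg (u z)])

theorem cont_HE (h2 : StA2) {g : ℂ → ℂ} (hg : Rap g) (t : ℝ) : Continuous (HE g t) :=
  (h2 g hg).2.comp (by fun_prop : Continuous (fun z : ℂ => (t, z)))

theorem lineDeriv_pair {u v : ℂ → ℂ} {u' v' : ℂ} {z w : ℂ} (hu : HasLineDerivAt ℝ u u' z w)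
    (hv : HasLineDerivAt ℝ v v' z w) :
    HasLineDerivAt ℝ (fun z => ((u z, v z) : E)) (u', v') z w :=
  HasDerivAt.prodMk hu hv

theorem main (h1 : StA1) (h2 : StA2) (h3 : StA3) (h5 : StA5) (hB1 : StB1) : StB2a := by
  intro U G η hSm g₀ g₁ hg₀ hg₁ hrel t
  have rx0 := rap_mx h1 hg₀
  have rx1 := rap_mx h1 hg₁
  have ry0 := rap_my h1 hg₀
  have ry1 := rap_my h1 hg₁
  have rxx0 := rap_mx h1 rx0
  have rxx1 := rap_mx h1 rx1
  have rxy0 := rap_my h1 rx0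
  have rxy1 := rap_my h1 rx1
  have ryy0 := rap_my h1 ry0
  have ryy1 := rap_my h1 ry1
  have exy : ∀ g : ℂ → ℂ, (fun ξ => mx ξ * (my ξ * g ξ)) = (fun ξ => my ξ * (mx ξ * g ξ)) := by
    intro g; funext ξ; ring
  have hP : ∀ {a b : ℂ → ℂ}, Rap a → Rap b → Continuous (fun z => ((HE a t z, HE b t z) : E)) :=
    fun ha hb => (cont_HE h2 ha t).prodMk (cont_HE h2 hb t)
  have hM : ∀ {a b : ℂ → ℂ}, Rap a → Rap b → MemLp (fun z => ((HE a t z, HE b t z) : E)) 2 :=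
    fun ha hb => memLp_pair (cont_HE h2 ha t) (cont_HE h2 hb t) (memLp_two h1 h2 h5 _ ha t)
      (memLp_two h1 h2 h5 _ hb t)
  have key := hB1 U G η hSm (fun z => (HE g₀ t z, HE g₁ t z))
    (fun z => (HE (fun ξ => mx ξ * g₀ ξ) t z, HE (fun ξ => mx ξ * g₁ ξ) t z))
    (fun z => (HE (fun ξ => my ξ * g₀ ξ) t z, HE (fun ξ => my ξ * g₁ ξ) t z))
    (fun z => (HE (fun ξ => mx ξ * (mx ξ * g₀ ξ)) t z, HE (fun ξ => mx ξ * (mx ξ * g₁ ξ)) t z))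
    (fun z => (HE (fun ξ => my ξ * (mx ξ * g₀ ξ)) t z, HE (fun ξ => my ξ * (mx ξ * g₁ ξ)) t z))
    (fun z => (HE (fun ξ => my ξ * (my ξ * g₀ ξ)) t z, HE (fun ξ => my ξ * (my ξ * g₁ ξ)) t z))
    (hP hg₀ hg₁) (hP rx0 rx1) (hP ry0 ry1) (hP rxx0 rxx1) (hP rxy0 rxy1) (hP ryy0 ryy1)
    ⟨max (∫ ξ, ‖g₀ ξ‖) (∫ ξ, ‖g₁ ξ‖),
      fun z => max_le_max ((h2 g₀ hg₀).1 t z) ((h2 g₁ hg₁).1 t z)⟩
    (hM hg₀ hg₁) (hM rx0 rx1) (hM ry0 ry1) (hM rxx0 rxx1) (hM rxy0 rxy1) (hM ryy0 ryy1)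
    (fun z => lineDeriv_pair (h3 g₀ hg₀ t z).1 (h3 g₁ hg₁ t z).1)
    (fun z => lineDeriv_pair (h3 g₀ hg₀ t z).2 (h3 g₁ hg₁ t z).2)
    (fun z => lineDeriv_pair (h3 _ rx0 t z).1 (h3 _ rx1 t z).1)
    (fun z => lineDeriv_pair (h3 _ rx0 t z).2 (h3 _ rx1 t z).2)
    (fun z => by
      have e0 := (h3 _ ry0 t z).1
      have e1 := (h3 _ ry1 t z).1
      have hh := lineDeriv_pair e0 e1
      have f0 : (fun ξ : ℂ => 2 * (Real.pi : ℂ) * I * (ξ.re : ℂ) * (my ξ * g₀ ξ))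
          = (fun ξ => my ξ * (mx ξ * g₀ ξ)) := exy g₀
      have f1 : (fun ξ : ℂ => 2 * (Real.pi : ℂ) * I * (ξ.re : ℂ) * (my ξ * g₁ ξ))
          = (fun ξ => my ξ * (mx ξ * g₁ ξ)) := exy g₁
      rw [f0, f1] at hh
      exact hh)
    (fun z => lineDeriv_pair (h3 _ ry0 t z).2 (h3 _ ry1 t z).2)
    (fun z => by
      unfold CR
      have e1 := HE_lin h1 rx1 ry1 1 I t z
      have e0 := HE_lin h1 rx0 ry0 1 (-I) t z
      rw [one_mul] at e1 e0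
      have e2 : HE (fun ξ => mx ξ * g₀ ξ) t z - I * HE (fun ξ => my ξ * g₀ ξ) t z
          = HE (fun ξ => mx ξ * g₀ ξ) t z + -I * HE (fun ξ => my ξ * g₀ ξ) t z := by ring
      rw [e2, e1, e0]
      congr 1
      funext ξ
      have hr := hrel ξ
      have c1 : (ξ.re : ℂ) + ξ.im * I = ξ := Complex.re_add_im ξ
      have c2 : (ξ.re : ℂ) - ξ.im * I = conj ξ := by
        apply Complex.ext <;> simp
      have l1 : 1 * (mx ξ * g₁ ξ) + I * (my ξ * g₁ ξ)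
          = 2 * Real.pi * I * (((ξ.re : ℂ) + ξ.im * I) * g₁ ξ) := by
        unfold mx my; ring
      have l0 : 1 * (mx ξ * g₀ ξ) + -I * (my ξ * g₀ ξ)
          = 2 * Real.pi * I * (((ξ.re : ℂ) - ξ.im * I) * g₀ ξ) := by
        unfold mx my; ring
      rw [l1, l0, c1, c2, hr])
  -- rewrite the sum of the second derivatives
  have hs : ∀ (g : ℂ → ℂ), Rap g → ∀ z, HE (fun ξ => mx ξ * (mx ξ * g ξ)) t z
      + HE (fun ξ => my ξ * (my ξ * g ξ)) t z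
      = ((4 * Real.pi ^ 2 : ℝ) : ℂ) * HE (fun ξ => (-(‖ξ‖ ^ 2 : ℝ) : ℂ) * g ξ) t z := by
    intro g hg z
    have e1 := HE_lin h1 (rap_mx h1 (rap_mx h1 hg)) (rap_my h1 (rap_my h1 hg)) 1 1 t z
    rw [one_mul, one_mul] at e1
    rw [e1]
    unfold HE
    rw [← integral_const_mul]
    congr 1
    funext ξ
    have hn : ((‖ξ‖ ^ 2 : ℝ) : ℂ) = (ξ.re : ℂ) ^ 2 + (ξ.im : ℂ) ^ 2 := by
      rw [← Complex.normSq_eq_norm_sq, Complex.normSq_apply]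
      push_cast
      ring
    beta_reduce
    rw [hn]
    generalize ((Real.exp (-max t 0 * ‖ξ‖ ^ 2) : ℝ) : ℂ) = ex
    unfold mx my
    have hI : I ^ 2 = -1 := Complex.I_sq
    push_cast
    linear_combination (ch z ξ * (ex * (4 * (Real.pi:ℂ)^2 * ((ξ.re:ℂ)^2 + (ξ.im:ℂ)^2) * g ξ))) * hI
  have key2 : ∫ z, G (HE g₀ t z, HE g₁ t z) ((HE (fun ξ => mx ξ * (mx ξ * g₀ ξ)) t z,
      HE (fun ξ => mx ξ * (mx ξ * g₁ ξ)) t z) + (HE (fun ξ => my ξ * (my ξ * g₀ ξ)) t z,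
      HE (fun ξ => my ξ * (my ξ * g₁ ξ)) t z))
      = 4 * Real.pi ^ 2 * ∫ z, G (HE g₀ t z, HE g₁ t z)
        (HE (fun ξ => (-(‖ξ‖ ^ 2 : ℝ) : ℂ) * g₀ ξ) t z,
          HE (fun ξ => (-(‖ξ‖ ^ 2 : ℝ) : ℂ) * g₁ ξ) t z) := by
    rw [← integral_const_mul]
    congr 1
    funext z
    have ep : ((HE (fun ξ => mx ξ * (mx ξ * g₀ ξ)) t z,
      HE (fun ξ => mx ξ * (mx ξ * g₁ ξ)) t z) + (HE (fun ξ => my ξ * (my ξ * g₀ ξ)) t z,
      HE (fun ξ => my ξ * (my ξ * g₁ ξ)) t z) : E)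
      = (4 * Real.pi ^ 2 : ℝ) • ((HE (fun ξ => (-(‖ξ‖ ^ 2 : ℝ) : ℂ) * g₀ ξ) t z,
          HE (fun ξ => (-(‖ξ‖ ^ 2 : ℝ) : ℂ) * g₁ ξ) t z) : E) := by
      rw [Prod.mk_add_mk, hs g₀ hg₀ z, hs g₁ hg₁ z, Prod.smul_mk, Complex.real_smul,
        Complex.real_smul]
    rw [ep, map_smul, smul_eq_mul]
  rw [key2] at key
  have hpos : (0:ℝ) < 4 * Real.pi ^ 2 := by have := Real.pi_pos; positivity
  by_contra hcon
  push Not at hcon
  have := mul_pos hpos hcon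
  linarith

end Helper85.IW.M_B2a
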