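import Pool.Agent.Helper85.IW.Statements

set_option autoImplicit false
set_option maxSynthPendingDepth 3

open MeasureTheory Complex Filter Topology
open scoped ENNReal NNReal ComplexConjugate

noncomputable section

namespace Helper85.IW.M_C2

open Helper72.BA Helper85.IW

theorem memLp_two (h1 : StA1) (h2 : StA2) (h5 : StA5) (g : ℂ → ℂ) (hg : Rap g) (t : ℝ) :
    MemLp (HE g t) 2 := by
  have hcont : Continuous (HE g t) :=
    (h2 g hg).2.comp (by fun_prop : Continuous (fun z : ℂ => (t, z)))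
  refine ⟨hcont.aestronglyMeasurable, ?_⟩
  rw [eLpNorm_lt_top_iff_lintegral_rpow_enorm_lt_top (by norm_num) (by norm_num)]
  have e0 : (2 : ℝ≥0∞).toReal = ((2:ℕ) : ℝ) := by norm_num
  rw [e0]
  simp only [ENNReal.rpow_natCast]
  rw [h5 g hg t]
  obtain ⟨hgi, hgN, hgk⟩ := h1.1 g hg
  obtain ⟨K, hK'⟩ := hgN.bdd
  have hKnn : 0 ≤ K := le_trans (norm_nonneg _) (hK' 0)
  calc ∫⁻ ξ, ‖((Real.exp (-(max t 0) * ‖ξ‖ ^ 2) : ℝ) : ℂ) * g ξ‖ₑ ^ 2
      ≤ ∫⁻ ξ, ENNReal.ofReal K * ‖g ξ‖ₑ := by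
        apply lintegral_mono
        intro ξ
        have e1 : ‖((Real.exp (-(max t 0) * ‖ξ‖ ^ 2) : ℝ) : ℂ) * g ξ‖ₑ ≤ ‖g ξ‖ₑ := by
          rw [← ofReal_norm, ← ofReal_norm]
          apply ENNReal.ofReal_le_ofReal
          rw [norm_mul, Complex.norm_real, Real.norm_eq_abs, abs_of_pos (Real.exp_pos _)]
          have h3 : Real.exp (-(max t 0) * ‖ξ‖ ^ 2) ≤ 1 := by
            rw [Real.exp_le_one_iff]
            have : 0 ≤ max t 0 := le_max_right _ _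
            nlinarith [sq_nonneg ‖ξ‖, mul_nonneg this (sq_nonneg ‖ξ‖)]
          have h4 := norm_nonneg (g ξ)
          nlinarith
        calc ‖((Real.exp (-(max t 0) * ‖ξ‖ ^ 2) : ℝ) : ℂ) * g ξ‖ₑ ^ 2 ≤ ‖g ξ‖ₑ ^ 2 := by gcongr
          _ ≤ ENNReal.ofReal K * ‖g ξ‖ₑ := by
            rw [sq]
            gcongr
            rw [← ofReal_norm]
            exact ENNReal.ofReal_le_ofReal (hK' ξ)
    _ = ENNReal.ofReal K * ∫⁻ ξ, ‖g ξ‖ₑ := by
        rw [lintegral_const_mul' _ _ ENNReal.ofReal_ne_top]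
    _ < ∞ := ENNReal.mul_lt_top ENNReal.ofReal_lt_top hgi.2

theorem main (h1 : StA1) (h2 : StA2) (h5 : StA5) (hB2 : StB2) (hC1 : StC1) : StC2 := by
  intro U G η hAdm g₀ g₁ hg₀ hg₁ hrel
  obtain ⟨Us, Gs, ηs, hSm, hlim, hbd⟩ := hC1 U G η hAdm
  set F : ℂ → E := fun z => (HE g₀ 0 z, HE g₁ 0 z) with hF
  have hF0c : Continuous (HE g₀ 0) :=
    (h2 g₀ hg₀).2.comp (by fun_prop : Continuous (fun z : ℂ => ((0:ℝ), z)))
  have hF1c : Continuous (HE g₁ 0) :=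
    (h2 g₁ hg₁).2.comp (by fun_prop : Continuous (fun z : ℂ => ((0:ℝ), z)))
  have hFc : Continuous F := hF0c.prodMk hF1c
  obtain ⟨R, hR⟩ : ∃ R : ℝ, ∀ z, ‖F z‖ ≤ R := by
    refine ⟨max (∫ ξ, ‖g₀ ξ‖) (∫ ξ, ‖g₁ ξ‖), fun z => ?_⟩
    exact max_le_max ((h2 g₀ hg₀).1 0 z) ((h2 g₁ hg₁).1 0 z)
  obtain ⟨K, hK⟩ := hbd R
  have hm0 := memLp_two h1 h2 h5 g₀ hg₀ 0
  have hm1 := memLp_two h1 h2 h5 g₁ hg₁ 0
  have hF2 : Integrable (fun z => K * ‖F z‖ ^ 2) := by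
    have hFm : MemLp F 2 := by
      refine MemLp.of_le_mul (g := fun z => ‖HE g₀ 0 z‖ + ‖HE g₁ 0 z‖) (c := 1)
        (hm0.norm.add hm1.norm) hFc.aestronglyMeasurable ?_
      refine Eventually.of_forall (fun z => ?_)
      have h3 : (0:ℝ) ≤ ‖HE g₀ 0 z‖ + ‖HE g₁ 0 z‖ := by positivity
      rw [one_mul, Real.norm_eq_abs, abs_of_nonneg h3]
      have e : ‖F z‖ = max ‖HE g₀ 0 z‖ ‖HE g₁ 0 z‖ := rfl
      rw [e]
      exact max_le (by linarith [norm_nonneg (HE g₁ 0 z)]) (by linarith [norm_nonneg (HE g₀ 0 z)])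
    have := hFm.integrable_norm_rpow (by norm_num) (by norm_num)
    have e0 : (2 : ℝ≥0∞).toReal = ((2:ℕ) : ℝ) := by norm_num
    rw [e0] at this
    simp only [Real.rpow_natCast] at this
    exact this.const_mul K
  have hUc : ∀ n, Continuous (Us n) := fun n =>
    continuous_iff_continuousAt.mpr (fun z => ((hSm n).der z).continuousAt)
  have hUc' : Continuous U := continuous_iff_continuousAt.mpr (fun z => (hAdm.der z).continuousAt)
  have hbound : ∀ n z, ‖Us n (F z)‖ ≤ K * ‖F z‖ ^ 2 := fun n z => hK n (F z) (hR z)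
  have hbound' : ∀ z, ‖U (F z)‖ ≤ K * ‖F z‖ ^ 2 := by
    intro z
    have h3 : Tendsto (fun n => ‖Us n (F z)‖) atTop (𝓝 ‖U (F z)‖) := (hlim (F z)).norm
    exact le_of_tendsto' h3 (fun n => hbound n z)
  have hint : Integrable (fun z => U (F z)) := by
    refine hF2.mono' (hUc'.comp hFc).aestronglyMeasurable ?_
    exact Eventually.of_forall hbound'
  refine ⟨hint, ?_⟩
  have ht : Tendsto (fun n => ∫ z, Us n (F z)) atTop (𝓝 (∫ z, U (F z))) := by
    refine tendsto_integral_of_dominated_convergence (fun z => K * ‖F z‖ ^ 2)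
      (fun n => ((hUc n).comp hFc).aestronglyMeasurable) hF2
      (fun n => Eventually.of_forall (fun z => hbound n z))
      (Eventually.of_forall (fun z => hlim (F z)))
  exact ge_of_tendsto' ht (fun n => hB2 (Us n) (Gs n) (ηs n) (hSm n) g₀ g₁ hg₀ hg₁ hrel)

end Helper85.IW.M_C2
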