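import Pool.Agent.Helper85.IW.Statements

set_option autoImplicit false
set_option maxSynthPendingDepth 3

open MeasureTheory Complex Filter Topology
open scoped ENNReal NNReal ComplexConjugate

noncomputable section

namespace Helper85.IW.M_F

open Helper72.BA Helper85.IW

theorem main (h1 : StA1) (h2 : StA2) (h5 : StA5) (h6 : StA6) (hC2 : StC2) (hD7 : StD7)
    (hE3 : StE3) (hK : StK) : StF := by
  intro p hp f
  obtain ⟨hRf, hRT, hrel, hf0, hT0⟩ := h6 f
  have hp0 : 0 < p := by linarith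
  have hC1 : 1 < CC p := (hK p hp).2.1
  have hC0 : 0 < CC p := by linarith
  -- pointwise bound
  have hpt : ∀ z : E, Up p z ≤ CC p ^ p * ‖z.1‖ ^ p - ‖z.2‖ ^ p := by
    intro z
    unfold Up Wf
    split_ifs with h
    · rcases (norm_nonneg z.2).eq_or_lt with hs | hs
      · have hr : ‖z.1‖ = 0 := by
          have h3 : CC p * ‖z.1‖ ≤ 0 := by rw [hs]; exact h
          have h4 := norm_nonneg z.1
          nlinarith
        rw [← hs, hr]
        unfold W1
        simp [Real.zero_rpow hp0.ne']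
      · exact hE3 p hp _ _ (norm_nonneg _) hs h
    · unfold W2
      exact le_refl _
  -- the two functions
  have hTf : HE (gT f) 0 = Tn 1 f := funext hT0
  have hff : HE (gf f) 0 = f := funext hf0
  obtain ⟨hInt, hnn⟩ := hC2 (Up p) (Gp p) (ηp p) (hD7 p hp) (gf f) (gT f) hRf hRT hrel
  rw [hTf, hff] at hInt hnn
  -- Tf continuous and bounded, square integrable
  have hTcont : Continuous (Tn 1 f) := by
    rw [← hTf]
    exact (h2 (gT f) hRT).2.comp (by fun_prop : Continuous (fun z : ℂ => ((0:ℝ), z)))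
  obtain ⟨M, hM⟩ : ∃ M : ℝ, ∀ z, ‖Tn 1 f z‖ ≤ M := by
    refine ⟨∫ ξ, ‖gT f ξ‖, fun z => ?_⟩
    rw [← hTf]
    exact (h2 (gT f) hRT).1 0 z
  have hL2 : ∫⁻ z, ‖Tn 1 f z‖ₑ ^ 2 < ∞ := by
    have h := h5 (gT f) hRT 0
    rw [hTf] at h
    rw [h]
    obtain ⟨hgi, hgN, hgk⟩ := h1.1 (gT f) hRT
    obtain ⟨K, hK'⟩ := hgN.bdd
    have hKnn : 0 ≤ K := le_trans (norm_nonneg _) (hK' 0)
    calc ∫⁻ ξ, ‖((Real.exp (-(max (0:ℝ) 0) * ‖ξ‖ ^ 2) : ℝ) : ℂ) * gT f ξ‖ₑ ^ 2
        ≤ ∫⁻ ξ, ENNReal.ofReal K * ‖gT f ξ‖ₑ := by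
          apply lintegral_mono
          intro ξ
          have e1 : ((Real.exp (-(max (0:ℝ) 0) * ‖ξ‖ ^ 2) : ℝ) : ℂ) * gT f ξ = gT f ξ := by
            simp
          simp only [e1]
          rw [sq]
          gcongr
          rw [← ofReal_norm]
          exact ENNReal.ofReal_le_ofReal (hK' ξ)
      _ = ENNReal.ofReal K * ∫⁻ ξ, ‖gT f ξ‖ₑ := by
          rw [lintegral_const_mul' _ _ ENNReal.ofReal_ne_top]
      _ < ∞ := ENNReal.mul_lt_top ENNReal.ofReal_lt_top hgi.2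
  have hq0 : ENNReal.ofReal p ≠ 0 := by simpa using hp0
  have hqt : ENNReal.ofReal p ≠ ∞ := ENNReal.ofReal_ne_top
  have hqr : (ENNReal.ofReal p).toReal = p := ENNReal.toReal_ofReal hp0.le
  have hM0 : 0 ≤ M := le_trans (norm_nonneg _) (hM 0)
  have hmT : MemLp (Tn 1 f) (ENNReal.ofReal p) := by
    refine ⟨hTcont.aestronglyMeasurable, ?_⟩
    rw [eLpNorm_lt_top_iff_lintegral_rpow_enorm_lt_top hq0 hqt, hqr]
    calc ∫⁻ z, ‖Tn 1 f z‖ₑ ^ p
        ≤ ∫⁻ z, ENNReal.ofReal M ^ (p - 2) * ‖Tn 1 f z‖ₑ ^ 2 := by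
          apply lintegral_mono
          intro z
          have e1 : ‖Tn 1 f z‖ₑ ^ p = ‖Tn 1 f z‖ₑ ^ (p - 2) * ‖Tn 1 f z‖ₑ ^ 2 := by
            rw [← ENNReal.rpow_natCast, ← ENNReal.rpow_add_of_nonneg _ _ (by linarith) (by norm_num)]
            congr 1
            push_cast
            ring
          simp only [e1]
          gcongr
          rw [← ofReal_norm]
          exact ENNReal.ofReal_le_ofReal (hM z)
      _ = ENNReal.ofReal M ^ (p - 2) * ∫⁻ z, ‖Tn 1 f z‖ₑ ^ 2 := by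
          rw [lintegral_const_mul']
          exact ENNReal.rpow_ne_top_of_nonneg (by linarith) ENNReal.ofReal_ne_top
      _ < ∞ := by
          apply ENNReal.mul_lt_top _ hL2
          exact (ENNReal.rpow_ne_top_of_nonneg (by linarith) ENNReal.ofReal_ne_top).lt_top
  have hmf : MemLp (fun z => f z) (ENNReal.ofReal p) := f.memLp _ _
  have hiT : Integrable (fun z => ‖Tn 1 f z‖ ^ p) := by
    have := hmT.integrable_norm_rpow hq0 hqt
    rwa [hqr] at this
  have hif : Integrable (fun z => ‖f z‖ ^ p) := by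
    have := hmf.integrable_norm_rpow hq0 hqt
    rwa [hqr] at this
  -- integral inequality
  have hmain : ∫ z, ‖Tn 1 f z‖ ^ p ≤ CC p ^ p * ∫ z, ‖f z‖ ^ p := by
    have h3 : ∫ z, Up p (f z, Tn 1 f z) ≤ ∫ z, (CC p ^ p * ‖f z‖ ^ p - ‖Tn 1 f z‖ ^ p) :=
      integral_mono hInt ((hif.const_mul _).sub hiT) (fun z => hpt (f z, Tn 1 f z))
    rw [integral_sub (hif.const_mul _) hiT, integral_const_mul] at h3
    linarith
  change eLpNorm (Tn 1 f) (ENNReal.ofReal p) volume ≤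
    ENNReal.ofReal (CC p) * eLpNorm (fun z => f z) (ENNReal.ofReal p) volume
  rw [hmT.eLpNorm_eq_integral_rpow_norm hq0 hqt, hmf.eLpNorm_eq_integral_rpow_norm hq0 hqt, hqr,
    ← ENNReal.ofReal_mul hC0.le]
  apply ENNReal.ofReal_le_ofReal
  have hIf : 0 ≤ ∫ z, ‖f z‖ ^ p := integral_nonneg (fun z => by positivity)
  calc (∫ z, ‖Tn 1 f z‖ ^ p) ^ p⁻¹ ≤ (CC p ^ p * ∫ z, ‖f z‖ ^ p) ^ p⁻¹ := by
        apply Real.rpow_le_rpow (integral_nonneg (fun z => by positivity)) hmain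
        positivity
    _ = CC p * (∫ z, ‖f z‖ ^ p) ^ p⁻¹ := by
        rw [Real.mul_rpow (by positivity) hIf, Real.rpow_rpow_inv hC0.le hp0.ne']

end Helper85.IW.M_F
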